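import Pool.Agent.Q144.SU.It
import Pool.Agent.Q41.SP.Stm3

/-! Project SP (helper41), job N3: iterates. -/

set_option autoImplicit false

namespace Pool.Agent.Q151.SP

open Finset Polynomial Pool.Agent.Q41.SU Pool.Agent.Q144.SU
open Pool.Agent.Q41.SP (S_itP RM Seg)

universe u

theorem RM_ne {E : Type u} [Field E] {d : ℕ} {p q : E[X]} (hd : 1 ≤ d) (h : RM d p q) : q ≠ 0 := by
  rintro rfl
  have h1 := h.co
  rw [isCoprime_zero_right] at h1
  have h2 := natDegree_eq_zero_of_isUnit h1
  have h3 := h.deg
  rw [h2, natDegree_zero] at h3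
  simp at h3
  omega

theorem itP : S_itP.{u} := by
  intro E _ d p q hd hRM n
  have hpq := hRM.co
  have hq0 := RM_ne hd hRM
  have hp : p.natDegree ≤ d := hRM.deg ▸ le_max_left _ _
  have hq : q.natDegree ≤ d := hRM.deg ▸ le_max_right _ _
  have hA : ∀ n, IsCoprime (itr d p q n).1 (itr d p q n).2 ∧ (itr d p q n).2 ≠ 0 ∧
      max (itr d p q n).1.natDegree (itr d p q n).2.natDegree = d ^ n :=
    fun n => itr_props hd hpq hRM.deg hq0 n
  refine ⟨⟨(hA n).1, (hA n).2.2⟩, ?_, ?_⟩
  · intro N x hS i
    induction n with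
    | zero =>
      intro _
      refine ⟨?_, ?_⟩
      · show (1 : E[X]).eval (x i) ≠ 0
        rw [eval_one]; exact one_ne_zero
      · show x (i + 0) = (X : E[X]).eval (x i) / (1 : E[X]).eval (x i)
        rw [eval_X, eval_one, div_one, Nat.add_zero]
    | succ n ih =>
      intro hi
      obtain ⟨h1, h2⟩ := ih (by omega)
      obtain ⟨h3, h4⟩ := hS.step (i + n) (by omega)
      have e1 := Pool.Agent.Q24.SU.hcm_eval (H := d) (g := p) (P := (itr d p q n).1) hp h1
      have e2 := Pool.Agent.Q24.SU.hcm_eval (H := d) (g := q) (P := (itr d p q n).1) hq h1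
      rw [← h2] at e1 e2
      refine ⟨?_, ?_⟩
      · show (hcm d q (itr d p q n).1 (itr d p q n).2).eval (x i) ≠ 0
        rw [e2]
        exact mul_ne_zero (pow_ne_zero _ h1) h3
      · show x (i + (n + 1)) = (hcm d p (itr d p q n).1 (itr d p q n).2).eval (x i) /
          (hcm d q (itr d p q n).1 (itr d p q n).2).eval (x i)
        rw [e1, e2, mul_div_mul_left _ _ (pow_ne_zero _ h1), ← Nat.add_assoc]
        exact h4
  · intro m
    let alg : E[X] →ₐ[E] RatFunc E := IsScalarTower.toAlgHom E E[X] (RatFunc E)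
    have halg : ∀ f, alg f = algebraMap E[X] (RatFunc E) f := fun f => rfl
    have hne : ∀ f : E[X], f ≠ 0 → alg f ≠ 0 := by
      intro f hf
      rw [halg]
      exact RatFunc.algebraMap_ne_zero hf
    set r := rf (itr d p q n).1 (itr d p q n).2 with hr
    have hr' : r = alg (itr d p q n).1 / alg (itr d p q n).2 := rfl
    have hrv : ∀ g : E[X], g ≠ 0 → aeval r g ≠ 0 := by
      intro g hg h0
      have h1 := Pool.Agent.Q24.SU.hcm_ne (H := g.natDegree) le_rfl hg (hA n).1 (hA n).2.1
        (by rw [(hA n).2.2]; exact Nat.one_le_pow _ _ hd)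
      have h2 := map_hcm alg (H := g.natDegree) (g := g) (P := (itr d p q n).1) le_rfl
        (hne _ (hA n).2.1)
      rw [← hr', h0, mul_zero] at h2
      exact hne _ h1 h2
    have hstep : ∀ j, rf (itr d p q (j + 1)).1 (itr d p q (j + 1)).2 =
        aeval (rf (itr d p q j).1 (itr d p q j).2) p /
          aeval (rf (itr d p q j).1 (itr d p q j).2) q := by
      intro j
      have hj := hne _ (hA j).2.1
      have e1 := map_hcm alg (H := d) (g := p) (P := (itr d p q j).1) hp hj
      have e2 := map_hcm alg (H := d) (g := q) (P := (itr d p q j).1) hq hj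
      show alg (hcm d p (itr d p q j).1 (itr d p q j).2) /
        alg (hcm d q (itr d p q j).1 (itr d p q j).2) = _
      rw [e1, e2, mul_div_mul_left _ _ (pow_ne_zero _ hj)]
      rfl
    have hstep' : ∀ j, aeval r (itr d p q (j + 1)).1 / aeval r (itr d p q (j + 1)).2 =
        aeval (aeval r (itr d p q j).1 / aeval r (itr d p q j).2) p /
          aeval (aeval r (itr d p q j).1 / aeval r (itr d p q j).2) q := by
      intro j
      have hj := hrv _ (hA j).2.1
      have e1 := map_hcm (aeval r) (H := d) (g := p) (P := (itr d p q j).1) hp hj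
      have e2 := map_hcm (aeval r) (H := d) (g := q) (P := (itr d p q j).1) hq hj
      show aeval r (hcm d p (itr d p q j).1 (itr d p q j).2) /
        aeval r (hcm d q (itr d p q j).1 (itr d p q j).2) = _
      rw [e1, e2, mul_div_mul_left _ _ (pow_ne_zero _ hj)]
    induction m with
    | zero =>
      show rf (itr d p q n).1 (itr d p q n).2 = aeval r X / aeval r 1
      rw [aeval_X, map_one, div_one]
    | succ m ih =>
      rw [← Nat.add_assoc, hstep, hstep', ih]

end Pool.Agent.Q151.SP
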