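import Pool.Agent.Q151.SP.RicP
import Pool.Agent.Q151.SP.ItP

/-! Project SP (helper41), job N10: quadratic relations. -/

set_option autoImplicit false

namespace Pool.Agent.Q151.SP

open Finset Polynomial
open Pool.Agent.Q41.SU (hcm rf wr vd cD Ric itr)
open Pool.Agent.Q41.SP (S_pigP S_itP S_ricP S_ric2P RM Seg)

universe u

theorem ric2P (h2 : S_pigP) (h3 : S_itP.{u}) (h9 : S_ricP.{u}) : S_ric2P.{u} := by
  classical
  intro d ε H hd hε
  obtain ⟨J, ε', N₀, hε', hpig⟩ := h2 1 ε le_rfl hε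
  obtain ⟨K, hK⟩ : ∃ K : ℕ, K = (H + 2) * d ^ J + H := ⟨_, rfl⟩
  refine ⟨max N₀ (⌈((K : ℝ) + 1) / ε'⌉₊), ?_⟩
  intro k E _ _ _ D p q hRM n x hS hn W hW hWn r₁ r₂ hr₂ hr₁d hr₂d hrel
  obtain ⟨m, hm1, hmJ, _, hcard⟩ := hpig n ((le_max_left _ _).trans hn) W hW hWn
  obtain ⟨hRM', hseg, _⟩ := h3 E d p q (by omega) hRM m
  obtain ⟨P, hP⟩ : ∃ P, P = (itr d p q m).1 := ⟨_, rfl⟩
  obtain ⟨Q, hQ⟩ : ∃ Q, Q = (itr d p q m).2 := ⟨_, rfl⟩
  rw [← hP, ← hQ] at hRM' hseg
  have hDm : d ^ m ≤ d ^ J := Nat.pow_le_pow_right (by omega) hmJ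
  have hdm : 2 ≤ d ^ m := by
    calc 2 ≤ d := hd
      _ = d ^ 1 := (pow_one d).symm
      _ ≤ d ^ m := Nat.pow_le_pow_right (by omega) hm1
  have hQ0 : Q ≠ 0 := RM_ne (by omega) hRM'
  have hPd : P.natDegree ≤ d ^ m := hRM'.deg ▸ le_max_left _ _
  have hQd : Q.natDegree ≤ d ^ m := hRM'.deg ▸ le_max_right _ _
  obtain ⟨F, hF⟩ : ∃ F, F = hcm H r₂ P Q * (vd D P Q * r₂ + wr P Q * r₁) - hcm H r₁ P Q * r₂ * Q ^ 2 := ⟨_, rfl⟩
  have hFdeg : F.natDegree ≤ K := by
    have a1 := Pool.Agent.Q24.SU.hcm_deg (H := H) (g := r₂) hPd hQd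
    have a2 := Pool.Agent.Q24.SU.hcm_deg (H := H) (g := r₁) hPd hQd
    have a3 := Pool.Agent.Q153.SU.vd_natDegree D hPd hQd
    have a4 := Pool.Agent.Q153.SU.wr_natDegree (by omega) hPd hQd
    have a5 : (vd D P Q * r₂ + wr P Q * r₁).natDegree ≤ 2 * d ^ m + H := by
      refine (natDegree_add_le _ _).trans (max_le ?_ ?_)
      · exact natDegree_mul_le.trans (by omega)
      · exact natDegree_mul_le.trans (by omega)
    have a6 : (Q ^ 2).natDegree ≤ 2 * d ^ m := natDegree_pow_le.trans (Nat.mul_le_mul_left _ hQd)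
    have a7 : (hcm H r₁ P Q * r₂).natDegree ≤ H * d ^ m + H := natDegree_mul_le.trans (by omega)
    have a8 : (H + 2) * d ^ m ≤ (H + 2) * d ^ J := Nat.mul_le_mul_left _ hDm
    have a9 : (H + 2) * d ^ m = H * d ^ m + 2 * d ^ m := by ring
    rw [hF]
    refine (natDegree_sub_le _ _).trans (max_le ?_ ?_)
    · exact natDegree_mul_le.trans (by omega)
    · exact natDegree_mul_le.trans (by omega)
  obtain ⟨V, hV⟩ : ∃ V, V = W.filter fun i => i + m ∈ W := ⟨_, rfl⟩
  rw [← hV] at hcard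
  have hroot : ∀ i ∈ V, F.eval (x i) = 0 := by
    intro i hi
    rw [hV, mem_filter] at hi
    have him : i + m < n := mem_range.1 (hW hi.2)
    obtain ⟨b1, b2⟩ := hseg n x hS i him
    have b3 := hrel i hi.1
    have b4 := hrel (i + m) hi.2
    have b5 := Pool.Agent.Q24.SU.D_quot D (P := P) b1
    rw [← b2] at b5
    have b6 := Pool.Agent.Q24.SU.hcm_eval (H := H) (g := r₂) (P := P) hr₂d b1
    have b7 := Pool.Agent.Q24.SU.hcm_eval (H := H) (g := r₁) (P := P) hr₁d b1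
    rw [← b2] at b6 b7
    rw [hF, eval_sub, eval_mul, eval_add, eval_mul, eval_mul, eval_mul, eval_mul, eval_pow, b6, b7, ← b3, ← b4]
    linear_combination (- Q.eval (x i) ^ H * r₂.eval (x (i + m)) * r₂.eval (x i)) * b5
  have hF0 : F = 0 := by
    by_contra hne
    have c1 : V.card ≤ F.roots.toFinset.card := by
      apply card_le_card_of_injOn x
      · intro i hi
        rw [mem_coe] at hi
        rw [mem_coe, Multiset.mem_toFinset, mem_roots hne]
        exact hroot i hi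
      · intro i hi j hj hij
        rw [mem_coe, hV, mem_filter] at hi hj
        exact hS.inj i (mem_range.1 (hW hi.1)) j (mem_range.1 (hW hj.1)) hij
    have c2 : V.card ≤ K := c1.trans ((Multiset.toFinset_card_le _).trans ((card_roots' F).trans hFdeg))
    have c3 : ((K : ℝ) + 1) / ε' ≤ n := (Nat.le_ceil _).trans (by exact_mod_cast (le_max_right _ _).trans hn)
    rw [div_le_iff₀ hε'] at c3
    have c4 : (V.card : ℝ) ≤ K := by exact_mod_cast c2
    linarith
  -- the Riccati equation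
  have hRic : Ric D P Q r₁ r₂ := by
    have hq' := Pool.Agent.Q153.SU.am_ne hQ0
    have e0 : algebraMap E[X] (RatFunc E) F = 0 := by rw [hF0, map_zero]
    rw [hF, map_sub, map_mul, map_mul, map_mul, map_add, map_mul, map_mul, map_pow,
      Pool.Agent.Q153.SU.hcm_spec hQ0 hr₂d, Pool.Agent.Q153.SU.hcm_spec hQ0 hr₁d] at e0
    have h2 : ∀ A : E[X], rf A (Q ^ 2) * algebraMap E[X] (RatFunc E) Q ^ 2 =
        algebraMap E[X] (RatFunc E) A := by
      intro A
      unfold rf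
      rw [map_pow, div_mul_cancel₀ _ (pow_ne_zero _ hq')]
    unfold Ric
    apply mul_left_cancel₀ (pow_ne_zero (H + 2) hq')
    rw [← h2 (vd D P Q), ← h2 (wr P Q)] at e0
    linear_combination -e0
  obtain ⟨α, β, γ, hr⟩ := h9 k E D P Q hRM'.co hQ0 (by rw [hRM'.deg]; exact hdm) r₁ r₂ hr₂ hRic
  refine ⟨α, β, γ, fun i hi hne => ?_⟩
  have f1 := hrel i hi
  rw [hr] at f1
  simp only [eval_mul, eval_add, eval_C, eval_pow, eval_X] at f1
  apply mul_left_cancel₀ hne
  linear_combination f1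

end Pool.Agent.Q151.SP
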