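import Pool.Agent.Q153.SU.Ric
import Pool.Agent.Q41.SP.Stm3

/-! Project SP (helper41), job N9: the Riccati equation in any characteristic (the proof of
`Pool.Agent.Q153.SU.ric`, which does not use the characteristic). -/

set_option autoImplicit false

namespace Pool.Agent.Q151.SP

open Finset Polynomial
open Pool.Agent.Q41.SU (hcm rf wr vd cD Ric)
open Pool.Agent.Q41.SP (S_ricP)
open Pool.Agent.Q153.SU

universe u

/-- **(N9) Riccati**, any characteristic -/
theorem ricP : S_ricP.{u} := by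
  intro k E _ _ _ D p q hpq hq hd R₁ R₂ hR₂ hR
  have hq' := am_ne hq
  obtain ⟨Q₂, Q₁, g, hrel, hg2, hg1⟩ := UniqueFactorizationMonoid.exists_reduced_factors R₂ hR₂ R₁
  have hco : IsCoprime Q₁ Q₂ := (isRelPrime_iff_isCoprime.mp hrel).symm
  have hg0 : g ≠ 0 := by
    rintro rfl
    rw [zero_mul] at hg2
    exact hR₂ hg2.symm
  have hQ₂ : Q₂ ≠ 0 := by
    rintro rfl
    rw [mul_zero] at hg2
    exact hR₂ hg2.symm
  obtain ⟨N, hN⟩ : ∃ N, N = max p.natDegree q.natDegree := ⟨_, rfl⟩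
  have hpN : p.natDegree ≤ N := by
    rw [hN]
    exact le_max_left _ _
  have hqN : q.natDegree ≤ N := by
    rw [hN]
    exact le_max_right _ _
  have hN2 : 2 ≤ N := by
    rw [hN]
    exact hd
  have hgφ : aeval (rf p q) g ≠ 0 := aeval_ne_zero hpq hq (by omega) hg0
  obtain ⟨m, hm⟩ : ∃ m, m = max Q₂.natDegree (Q₁.natDegree - 2) := ⟨_, rfl⟩
  have hm2 : Q₂.natDegree ≤ m := by
    rw [hm]
    exact le_max_left _ _
  have hm1 : Q₁.natDegree ≤ m + 2 := by
    have : Q₁.natDegree - 2 ≤ m := by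
      rw [hm]
      exact le_max_right _ _
    omega
  have htop : Q₁.coeff (m + 2) ≠ 0 ∨ Q₂.coeff m ≠ 0 := by
    rcases le_total (Q₁.natDegree - 2) Q₂.natDegree with h | h
    · right
      rw [hm, max_eq_left h]
      exact leadingCoeff_ne_zero.mpr hQ₂
    · rcases Nat.eq_zero_or_pos (Q₁.natDegree - 2) with h0 | h0
      · right
        rw [hm, max_eq_right h, h0]
        have h3 : Q₂.natDegree = 0 := by omega
        rw [← h3]
        exact leadingCoeff_ne_zero.mpr hQ₂
      · left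
        rw [hm, max_eq_right h, show Q₁.natDegree - 2 + 2 = Q₁.natDegree by omega]
        have hQ₁ : Q₁ ≠ 0 := by
          rintro rfl
          rw [natDegree_zero] at h0
          omega
        exact leadingCoeff_ne_zero.mpr hQ₁
  -- the polynomial relation
  have hpoly : hcm (m + 2) Q₁ p q * Q₂ = (vd D p q * Q₂ + wr p q * Q₁) * hcm m Q₂ p q := by
    apply am_inj
    rw [map_mul, map_mul, map_add, map_mul, map_mul, hcm_spec hq hm1, hcm_spec hq hm2]
    unfold Ric at hR
    rw [← hg1, ← hg2] at hR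
    simp only [map_mul] at hR
    have h1 : aeval (rf p q) Q₁ * algebraMap E[X] (RatFunc E) Q₂ =
        (rf (vd D p q) (q ^ 2) * algebraMap E[X] (RatFunc E) Q₂ +
          rf (wr p q) (q ^ 2) * algebraMap E[X] (RatFunc E) Q₁) * aeval (rf p q) Q₂ := by
      apply mul_left_cancel₀ (mul_ne_zero hgφ (am_ne hg0))
      linear_combination hR
    have h2 : ∀ A : E[X], rf A (q ^ 2) * algebraMap E[X] (RatFunc E) q ^ 2 =
        algebraMap E[X] (RatFunc E) A := by
      intro A
      unfold rf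
      rw [map_pow, div_mul_cancel₀ _ (pow_ne_zero _ hq')]
    rw [← h2 (vd D p q), ← h2 (wr p q)]
    linear_combination algebraMap E[X] (RatFunc E) q ^ (m + 2) * h1
  obtain ⟨h₁, hh₁⟩ : ∃ h₁, h₁ = hcm (m + 2) Q₁ p q := ⟨_, rfl⟩
  obtain ⟨h₂, hh₂⟩ : ∃ h₂, h₂ = hcm m Q₂ p q := ⟨_, rfl⟩
  have hcop : IsCoprime h₁ h₂ := by
    rw [hh₁, hh₂]
    exact hcm_coprime hco hm1 hm2 htop hpq hq
  have htop2 : h₁.coeff (N * (m + 2)) ≠ 0 ∨ h₂.coeff (N * m) ≠ 0 := by
    rw [hh₁, hh₂]
    refine top_ne hco hm1 hm2 htop hpN hqN ?_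
    rw [hN]
    exact max_coeff (by omega)
  rw [← hh₁, ← hh₂] at hpoly
  have hdvd : h₂ ∣ Q₂ := by
    refine hcop.symm.dvd_of_dvd_mul_left ?_
    rw [hpoly]
    exact dvd_mul_left _ _
  have hdeg : h₂.natDegree ≤ Q₂.natDegree := natDegree_le_of_dvd hdvd hQ₂
  have hm0 : m = 0 := by
    rcases htop2 with h | h
    · have h3 : N * (m + 2) ≤ h₁.natDegree := le_natDegree_of_ne_zero h
      have hh10 : h₁ ≠ 0 := by
        rintro rfl
        exact h (coeff_zero _)
      have h4 := congrArg natDegree hpoly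
      rw [natDegree_mul hh10 hQ₂] at h4
      have h5 : ((vd D p q * Q₂ + wr p q * Q₁) * h₂).natDegree ≤ 2 * N + m + h₂.natDegree := by
        refine natDegree_mul_le.trans (Nat.add_le_add_right ?_ _)
        refine (natDegree_add_le _ _).trans (max_le ?_ ?_)
        · have h6 := vd_natDegree D hpN hqN
          exact natDegree_mul_le.trans (by omega)
        · have h6 := wr_natDegree (by omega) hpN hqN
          exact natDegree_mul_le.trans (by omega)
      have h6 : N * (m + 2) = N * m + 2 * N := by ring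
      have h7 : 2 * m ≤ N * m := Nat.mul_le_mul_right m hN2
      omega
    · have h3 : N * m ≤ h₂.natDegree := le_natDegree_of_ne_zero h
      have h7 : 2 * m ≤ N * m := Nat.mul_le_mul_right m hN2
      omega
  rw [hm0] at hm1 hm2
  obtain ⟨c, hc⟩ := natDegree_eq_zero.mp (Nat.le_zero.mp hm2)
  have hc0 : c ≠ 0 := by
    rintro rfl
    rw [C_0] at hc
    exact hQ₂ hc.symm
  have hQ1 : Q₁ = C (Q₁.coeff 2) * X ^ 2 + C (Q₁.coeff 1) * X + C (Q₁.coeff 0) := by
    have h8 : Q₁.natDegree < 3 := by omega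
    conv_lhs => rw [as_sum_range_C_mul_X_pow' Q₁ h8]
    rw [Finset.sum_range_succ, Finset.sum_range_succ, Finset.sum_range_succ, Finset.sum_range_zero]
    ring
  refine ⟨Q₁.coeff 2 / c, Q₁.coeff 1 / c, Q₁.coeff 0 / c, ?_⟩
  have h9 : ∀ x : E, C (x / c) * C c = C x := by
    intro x
    rw [← C_mul, div_mul_cancel₀ _ hc0]
  calc R₁ = g * Q₁ := hg1.symm
    _ = g * (C (Q₁.coeff 2) * X ^ 2 + C (Q₁.coeff 1) * X + C (Q₁.coeff 0)) := by rw [← hQ1]
    _ = (C (Q₁.coeff 2 / c) * X ^ 2 + C (Q₁.coeff 1 / c) * X + C (Q₁.coeff 0 / c)) * (g * C c) := by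
        rw [← h9 (Q₁.coeff 2), ← h9 (Q₁.coeff 1), ← h9 (Q₁.coeff 0)]
        ring
    _ = _ := by rw [hc, hg2]

end Pool.Agent.Q151.SP
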