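import Pool.Agent.Q41.SP.Stm3

/-! Project SP (helper41), job N1: reduction of the degree. -/

set_option autoImplicit false

namespace Pool.Agent.Q151.SP

open Finset Polynomial
open Pool.Agent.Q41.SP (S_wpP Dg red Va)

universe u

section
variable {A : Type*} [CommRing A]

lemma comp_coeff_deg (K : A[X][X]) (n h b : ℕ) (hK : K.natDegree ≤ n) (hKc : ∀ j, (K.coeff j).natDegree ≤ h)
    (s : A[X]) (hs : s.natDegree ≤ b) (j : ℕ) : ((K.comp (X + C s)).coeff j).natDegree ≤ h + b * n := by
  rw [comp, eval₂_eq_sum_range' C (Nat.lt_succ_of_le hK), finsetSum_coeff]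
  refine natDegree_sum_le_of_forall_le _ _ fun e he => ?_
  have he' : e ≤ n := Nat.lt_succ_iff.1 (mem_range.1 he)
  rw [coeff_C_mul, coeff_X_add_C_pow]
  have h1 : (s ^ (e - j)).natDegree ≤ n * b :=
    natDegree_pow_le.trans (Nat.mul_le_mul (by omega) hs)
  have h2 : (((e.choose j : ℕ) : A[X])).natDegree = 0 := natDegree_natCast _
  have h3 : (s ^ (e - j) * ((e.choose j : ℕ) : A[X])).natDegree ≤ n * b := natDegree_mul_le.trans (by omega)
  refine natDegree_mul_le.trans ?_
  have h4 := hKc e
  have h5 : b * n = n * b := Nat.mul_comm _ _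
  omega

lemma comp_deg (K : A[X][X]) (n : ℕ) (hK : K.natDegree ≤ n) (s : A[X]) : (K.comp (X + C s)).natDegree ≤ n := by
  refine natDegree_comp_le.trans ?_
  have h1 : (X + C s : A[X][X]).natDegree ≤ 1 :=
    (natDegree_add_le _ _).trans (max_le natDegree_X_le (by rw [natDegree_C]; omega))
  calc K.natDegree * (X + C s : A[X][X]).natDegree ≤ n * 1 := Nat.mul_le_mul hK h1
    _ = n := Nat.mul_one n

lemma det_deg {m : ℕ} (T : Matrix (Fin m) (Fin m) A[X]) (K : ℕ) (h : ∀ i j, (T i j).natDegree ≤ K) :
    T.det.natDegree ≤ m * K := by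
  rw [Matrix.det_apply']
  refine natDegree_sum_le_of_forall_le _ _ fun σ _ => ?_
  refine natDegree_mul_le.trans ?_
  rw [natDegree_intCast, Nat.zero_add]
  refine (natDegree_prod_le _ _).trans ?_
  calc ∑ i, (T (σ i) i).natDegree ≤ ∑ _i : Fin m, K := sum_le_sum fun i _ => h _ _
    _ = m * K := by rw [sum_const, card_univ, Fintype.card_fin, smul_eq_mul]

lemma adj_deg {m : ℕ} (T : Matrix (Fin m) (Fin m) A[X]) (K : ℕ) (h : ∀ i j, (T i j).natDegree ≤ K) (i j : Fin m) :
    (T.adjugate i j).natDegree ≤ m * K := by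
  rw [Matrix.adjugate_apply]
  apply det_deg
  intro a b
  rw [Matrix.updateRow_apply]
  split_ifs
  · rw [Pi.single_apply]
    split_ifs
    · rw [natDegree_one]; exact Nat.zero_le _
    · rw [natDegree_zero]; exact Nat.zero_le _
  · exact h a b

end

theorem wpP : S_wpP.{u} := by
  classical
  intro E _ β H Q M G hG hred
  obtain ⟨r, hr⟩ : ∃ r : (PowerSeries E)[X], r = X ^ Q := ⟨_, rfl⟩
  have hrd : r.natDegree ≤ Q := by rw [hr]; exact natDegree_X_pow_le Q
  have hrd' : (-r).natDegree ≤ Q := by rw [natDegree_neg]; exact hrd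
  obtain ⟨A, hA⟩ : ∃ A : (PowerSeries E)[X][X], A = G.comp (X + C r) := ⟨_, rfl⟩
  have hAG : A.comp (X + C (-r)) = G := by
    rw [hA, comp_assoc, add_comp, X_comp, C_comp]
    have e : (X + C (-r) + C r : (PowerSeries E)[X][X]) = X := by rw [C_neg]; ring
    rw [e, comp_X]
  obtain ⟨K, hK⟩ : ∃ K, K = H + Q * β := ⟨_, rfl⟩
  have hAd : A.natDegree ≤ β := by rw [hA]; exact comp_deg G β hG.1 r
  have hAc : ∀ j, (A.coeff j).natDegree ≤ K := fun j => by
    rw [hA, hK]; exact comp_coeff_deg G β H Q hG.1 hG.2 r hrd j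
  obtain ⟨φ, hφ⟩ : ∃ φ : (PowerSeries E)[X] →+* E[X], φ = mapRingHom PowerSeries.constantCoeff := ⟨_, rfl⟩
  have hredφ : ∀ F : (PowerSeries E)[X][X], red F = F.map φ := fun F => by rw [hφ]; rfl
  have hφr : φ r = X ^ Q := by rw [hφ, hr]; simp
  have hredc : ∀ F : (PowerSeries E)[X][X], red (F.comp (X + C (-r))) = (F.map φ).comp (X - C (X ^ Q)) := by
    intro F
    rw [hredφ, map_comp, Polynomial.map_add, map_X, map_C, map_neg, hφr, C_neg, sub_eq_add_neg]
  have hrG : red G = (A.map φ).comp (X - C (X ^ Q)) := by rw [← hredc, hAG]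
  have hne : A.map φ ≠ 0 := by
    intro h
    rw [hrG, h, zero_comp] at hred
    exact hred rfl
  have hinj : ∀ F : (PowerSeries E)[X][X], F.map φ ≠ 0 → red (F.comp (X + C (-r))) ≠ 0 := by
    intro F hF h
    rw [hredc] at h
    apply hF
    have h1 := congrArg (fun g : E[X][X] => g.comp (X + C (X ^ Q))) h
    simp only [zero_comp] at h1
    rw [comp_assoc, sub_comp, X_comp, C_comp, add_sub_cancel_right, comp_X] at h1
    exact h1
  -- evaluation
  have hVa : ∀ (F : (PowerSeries E)[X][X]) (N : ℕ), X ^ N ∣ F → ∀ (x : E) (y : PowerSeries E),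
      PowerSeries.X ∣ y - PowerSeries.C (x ^ Q) → Va N (F.comp (X + C (-r))) x y := by
    intro F N hF x y hxy
    obtain ⟨F₁, rfl⟩ := hF
    unfold Va
    rw [mul_comp, X_pow_comp, evalEval_mul, evalEval_pow]
    apply Dvd.dvd.mul_right
    apply pow_dvd_pow_of_dvd
    have e : (X + C (-r) : (PowerSeries E)[X][X]).evalEval (PowerSeries.C x) y = y - PowerSeries.C (x ^ Q) := by
      rw [evalEval_add, evalEval_X, evalEval_C, hr, eval_neg, eval_pow, eval_X, map_pow, sub_eq_add_neg]
    rw [e]; exact hxy
  by_cases hall : ∀ j < β, φ (A.coeff j) = 0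
  · left
    have hAm : A.map φ = C (φ (A.coeff β)) * X ^ β := by
      ext1 j
      rw [coeff_map, coeff_C_mul, coeff_X_pow]
      rcases lt_trichotomy j β with h | h | h
      · rw [hall j h, if_neg (by omega), mul_zero]
      · rw [h, if_pos rfl, mul_one]
      · rw [coeff_eq_zero_of_natDegree_lt (by omega), map_zero, if_neg (by omega), mul_zero]
    have hrG2 : red G = C (φ (A.coeff β)) * (X - C (X ^ Q)) ^ β := by
      rw [hrG, hAm, mul_comp, C_comp, X_pow_comp]
    refine ⟨φ (A.coeff β), ?_, ?_, hrG2⟩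
    · intro h
      apply hne
      rw [hAm, h, C_0, zero_mul]
    · have h1 : (red G).coeff β = φ (A.coeff β) := by
        rw [hrG2, coeff_C_mul, sub_eq_add_neg, ← C_neg, coeff_X_add_C_pow, Nat.sub_self, pow_zero, Nat.choose_self, Nat.cast_one, mul_one, mul_one]
      rw [← h1, hredφ, coeff_map, hφ]
      exact (natDegree_map_le).trans (hG.2 β)
  · right
    push Not at hall
    have hex : ∃ j, j < β ∧ φ (A.coeff j) ≠ 0 := hall
    obtain ⟨j₀, hj₀⟩ : ∃ j₀, j₀ = Nat.find hex := ⟨_, rfl⟩
    have hj1 : j₀ < β ∧ φ (A.coeff j₀) ≠ 0 := by rw [hj₀]; exact Nat.find_spec hex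
    have hj2 : ∀ j < j₀, φ (A.coeff j) = 0 := by
      intro j hj
      have h1 := Nat.find_min hex (m := j) (by rw [← hj₀]; exact hj)
      by_contra h2
      exact h1 ⟨by omega, h2⟩
    have hβ : 1 ≤ β := by omega
    refine ⟨hβ, ?_⟩
    have hKQ : Q * β ≤ K := by rw [hK]; omega
    rw [← hK]
    by_cases hM : M ≤ j₀
    · refine ⟨(X ^ j₀ : (PowerSeries E)[X][X]).comp (X + C (-r)), ⟨?_, ?_⟩, ?_, ?_⟩
      · refine (comp_deg _ j₀ (natDegree_X_pow_le _) (-r)).trans (by omega)
      · intro i
        refine (comp_coeff_deg _ j₀ 0 Q (natDegree_X_pow_le _) ?_ (-r) hrd' i).trans ?_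
        · intro j
          rw [coeff_X_pow]
          split_ifs
          · rw [natDegree_one]
          · rw [natDegree_zero]
        · rw [Nat.zero_add]
          calc Q * j₀ ≤ Q * β := Nat.mul_le_mul_left _ (by omega)
            _ ≤ K := hKQ
            _ = 1 * K := (Nat.one_mul K).symm
            _ ≤ (M + 1) * K := Nat.mul_le_mul_right _ (by omega)
      · apply hinj
        rw [Polynomial.map_pow, map_X]
        exact pow_ne_zero _ X_ne_zero
      · intro x y hxy _
        have h1 := hVa (X ^ j₀) j₀ (dvd_refl _) x y hxy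
        unfold Va at h1 ⊢
        exact (pow_dvd_pow _ hM).trans h1
    · push Not at hM
      obtain ⟨m, hm⟩ : ∃ m, m = M - j₀ := ⟨_, rfl⟩
      have hm0 : 0 < m := by omega
      obtain ⟨T, hT⟩ : ∃ T : Matrix (Fin m) (Fin m) (PowerSeries E)[X],
        T = Matrix.of fun (j i : Fin m) => if (i : ℕ) ≤ j₀ + j then A.coeff (j₀ + j - i) else 0 := ⟨_, rfl⟩
      have hTd : ∀ i j, (T i j).natDegree ≤ K := by
        intro i j
        rw [hT, Matrix.of_apply]
        split_ifs
        · exact hAc _
        · rw [natDegree_zero]; exact Nat.zero_le _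
      have hΔ : φ T.det = φ (A.coeff j₀) ^ m := by
        rw [RingHom.map_det, Matrix.det_of_isLowerTriangular]
        · have h1 : ∀ i ∈ (univ : Finset (Fin m)), (RingHom.mapMatrix φ T) i i = φ (A.coeff j₀) := by
            intro i _
            rw [RingHom.mapMatrix_apply, Matrix.map_apply, hT, Matrix.of_apply, if_pos (by omega)]
            congr 2
            omega
          rw [prod_congr rfl h1, prod_const, card_univ, Fintype.card_fin]
        · intro i j hij
          have hij' : (i : ℕ) < j := hij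
          rw [RingHom.mapMatrix_apply, Matrix.map_apply, hT, Matrix.of_apply]
          split_ifs with h
          · exact hj2 _ (by omega)
          · exact map_zero φ
      obtain ⟨z0, hz0⟩ : ∃ z0 : Fin m, z0 = ⟨0, hm0⟩ := ⟨_, rfl⟩
      obtain ⟨cv, hcv⟩ : ∃ cv : Fin m → (PowerSeries E)[X], cv = fun i => T.adjugate i z0 := ⟨_, rfl⟩
      have hcvd : ∀ i, (cv i).natDegree ≤ m * K := fun i => by rw [hcv]; exact adj_deg T K hTd i z0
      have hCr : ∀ j : Fin m, ∑ i, cv i * T j i = if j = z0 then T.det else 0 := by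
        intro j
        have h1 : (T * T.adjugate) j z0 = (T.det • (1 : Matrix (Fin m) (Fin m) (PowerSeries E)[X])) j z0 := by
          rw [Matrix.mul_adjugate]
        rw [Matrix.mul_apply, Matrix.smul_apply, Matrix.one_apply, smul_eq_mul] at h1
        rw [hcv]
        simp only
        rw [sum_congr rfl (fun i _ => mul_comm _ _), h1]
        split_ifs <;> simp
      obtain ⟨cp, hcp⟩ : ∃ cp : (PowerSeries E)[X][X], cp = ∑ i : Fin m, C (cv i) * X ^ (i : ℕ) := ⟨_, rfl⟩
      have hco : ∀ n, (cp * A).coeff n = ∑ i : Fin m, cv i * (if (i : ℕ) ≤ n then A.coeff (n - i) else 0) := by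
        intro n
        rw [hcp, sum_mul, finsetSum_coeff]
        apply sum_congr rfl
        intro i _
        rw [mul_assoc, coeff_C_mul, coeff_X_pow_mul']
      have hco2 : ∀ j : Fin m, (cp * A).coeff (j₀ + j) = if j = z0 then T.det else 0 := by
        intro j
        rw [hco, ← hCr]
        apply sum_congr rfl
        intro i _
        rw [hT, Matrix.of_apply]
      obtain ⟨K', hK'⟩ : ∃ K' : (PowerSeries E)[X][X], K' = ∑ n ∈ range (j₀ + 1), C ((cp * A).coeff n) * X ^ n := ⟨_, rfl⟩
      have hK'c : ∀ n, K'.coeff n = if n ≤ j₀ then (cp * A).coeff n else 0 := by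
        intro n
        rw [hK', finsetSum_coeff]
        simp only [coeff_C_mul, coeff_X_pow, mul_ite, mul_one, mul_zero]
        rw [Finset.sum_ite_eq]
        simp only [mem_range, Nat.lt_succ_iff]
      have hdet0 : (cp * A).coeff j₀ = T.det := by
        have := hco2 z0
        rw [if_pos rfl, hz0] at this
        exact this
      have hK'd : K'.natDegree ≤ j₀ := by
        rw [natDegree_le_iff_coeff_eq_zero]
        intro n hn
        rw [hK'c, if_neg (by omega)]
      have hK'deg : ∀ n, (K'.coeff n).natDegree ≤ M * K := by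
        intro n
        rw [hK'c]
        split_ifs with h
        · rcases h.lt_or_eq with h1 | h1
          · rw [hco]
            refine natDegree_sum_le_of_forall_le _ _ fun i _ => ?_
            have h2 : (if (i : ℕ) ≤ n then A.coeff (n - i) else 0 : (PowerSeries E)[X]).natDegree ≤ K := by
              split_ifs
              · exact hAc _
              · rw [natDegree_zero]; exact Nat.zero_le _
            refine natDegree_mul_le.trans ?_
            have h3 := hcvd i
            calc (cv i).natDegree + _ ≤ m * K + K := Nat.add_le_add h3 h2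
              _ = (m + 1) * K := by ring
              _ ≤ M * K := Nat.mul_le_mul_right _ (by omega)
          · rw [h1, hdet0]
            exact (det_deg T K hTd).trans (Nat.mul_le_mul_right _ (by omega))
        · rw [natDegree_zero]; exact Nat.zero_le _
      refine ⟨K'.comp (X + C (-r)), ⟨?_, ?_⟩, ?_, ?_⟩
      · exact (comp_deg K' j₀ hK'd (-r)).trans (by omega)
      · intro i
        refine (comp_coeff_deg K' j₀ (M * K) Q hK'd hK'deg (-r) hrd' i).trans ?_
        calc M * K + Q * j₀ ≤ M * K + Q * β := Nat.add_le_add_left (Nat.mul_le_mul_left _ (by omega)) _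
          _ ≤ M * K + K := Nat.add_le_add_left hKQ _
          _ = (M + 1) * K := by ring
      · apply hinj
        intro h
        have h1 := congrArg (fun g : E[X][X] => g.coeff j₀) h
        simp only [coeff_map, coeff_zero] at h1
        rw [hK'c, if_pos le_rfl, hdet0, hΔ] at h1
        exact pow_ne_zero _ hj1.2 h1
      · intro x y hxy hG2
        have hdvd : X ^ M ∣ cp * A - K' := by
          rw [X_pow_dvd_iff]
          intro n hn
          rw [coeff_sub, hK'c]
          split_ifs with h
          · rw [sub_self]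
          · obtain ⟨j, hj⟩ : ∃ j : Fin m, n = j₀ + j := ⟨⟨n - j₀, by omega⟩, by simp only; omega⟩
            rw [hj, hco2, if_neg, sub_zero]
            intro h1
            rw [h1, hz0] at hj
            simp only at hj
            omega
        have h1 := hVa _ M hdvd x y hxy
        have h2 : Va M ((cp * A).comp (X + C (-r))) x y := by
          unfold Va at hG2 ⊢
          rw [mul_comp, hAG, evalEval_mul]
          exact hG2.mul_left _
        unfold Va at h1 h2 ⊢
        rw [sub_comp, evalEval_sub] at h1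
        have h3 := dvd_sub h2 h1
        rwa [sub_sub_cancel] at h3

end Pool.Agent.Q151.SP
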