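import Pool.Agent.Q208.SP.BL
import Pool.Agent.Q62.SP.Stm2

/-!
# Project SP (helper62), job SP-35: the operator gains one derivative up to a logarithmic factor
-/

set_option autoImplicit false

open MeasureTheory Set Filter Topology
open scoped ContDiff
open H459R3.NS (V pd Per cube)

namespace Pool.Agent.Q151.SP

open Pool.Agent.Q62.SP Pool.Agent.Q208.SP

/-- `∑ (n + 1)² rⁿ ≤ 2 / (1 - r)³` -/
theorem tsum_sq_le {r : ℝ} (h0 : 0 ≤ r) (h1 : r < 1) :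
    ∑' n : ℕ, ((n : ℝ) + 1) ^ 2 * r ^ n ≤ 2 / (1 - r) ^ 3 := by
  have hn : ‖r‖ < 1 := by rwa [Real.norm_eq_abs, abs_of_nonneg h0]
  have e1 := tsum_choose_mul_geometric_of_norm_lt_one 2 hn
  have hs : Summable (fun n : ℕ => ((n + 2).choose 2 : ℝ) * r ^ n) :=
    summable_choose_mul_geometric_of_norm_lt_one 2 hn
  have h2 : ∀ n : ℕ, ((n : ℝ) + 1) ^ 2 * r ^ n ≤ 2 * (((n + 2).choose 2 : ℝ) * r ^ n) := by
    intro n
    have h3 : (((n + 2).choose 2 : ℕ) : ℝ) = ((n : ℝ) + 2) * (n + 1) / 2 := by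
      rw [Nat.cast_choose_two]
      push_cast
      ring
    rw [h3]
    have h4 : ((n : ℝ) + 1) ^ 2 ≤ ((n : ℝ) + 2) * (n + 1) := by nlinarith [Nat.cast_nonneg (α := ℝ) n]
    have h5 := mul_le_mul_of_nonneg_right h4 (pow_nonneg h0 n)
    linarith
  calc ∑' n : ℕ, ((n : ℝ) + 1) ^ 2 * r ^ n ≤ ∑' n : ℕ, 2 * (((n + 2).choose 2 : ℝ) * r ^ n) :=
        (summ_poly h0 h1).tsum_le_tsum h2 (hs.mul_left 2)
    _ = 2 / (1 - r) ^ 3 := by
        rw [tsum_mul_left, e1]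
        ring

/-- the numerical bound -/
theorem num {t : ℝ} (ht : 0 < t) : ∃ γ : ℝ, 0 < γ ∧ γ < 1 ∧
    t ^ γ * ∑' n : ℕ, ((n : ℝ) + 1) ^ 2 * ((2 : ℝ) ^ (γ - 1)) ^ n ≤
      (Real.exp 1 * 250) * (t * (1 + |Real.log t|) ^ 3) := by
  obtain ⟨L, hL⟩ : ∃ L, L = 1 + |Real.log t| := ⟨_, rfl⟩
  have hL1 : 1 ≤ L := by
    rw [hL]
    linarith [abs_nonneg (Real.log t)]
  obtain ⟨x, hx⟩ : ∃ x, x = 1 / (2 * L) := ⟨_, rfl⟩
  have hx0 : 0 < x := by
    rw [hx]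
    positivity
  have hxL : x * L = 1 / 2 := by
    rw [hx]
    field_simp
  have hx2 : x ≤ 1 / 2 := by nlinarith
  refine ⟨1 - x, by linarith, by linarith, ?_⟩
  have hr : (2 : ℝ) ^ (1 - x - 1) = Real.exp (-(x * Real.log 2)) := by
    rw [Real.rpow_def_of_pos (by norm_num)]
    congr 1
    ring
  obtain ⟨r, hrr⟩ : ∃ r, r = (2 : ℝ) ^ (1 - x - 1) := ⟨_, rfl⟩
  rw [← hrr] at hr ⊢
  have hlog : (1 : ℝ) / 2 ≤ Real.log 2 := by
    have := Real.log_two_gt_d9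
    linarith
  have hr0 : 0 ≤ r := by
    rw [hr]
    exact (Real.exp_pos _).le
  have hu : x / 2 ≤ x * Real.log 2 := by nlinarith
  have hr1 : r ≤ 1 - 2 * x / 5 := by
    rw [hr, Real.exp_neg]
    have h1 : 1 + x / 2 ≤ Real.exp (x * Real.log 2) := by
      have := Real.add_one_le_exp (x * Real.log 2)
      linarith
    have h2 : (Real.exp (x * Real.log 2))⁻¹ ≤ (1 + x / 2)⁻¹ :=
      inv_anti₀ (by linarith) h1
    refine h2.trans ?_
    rw [inv_le_iff_one_le_mul₀ (by linarith)]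
    nlinarith
  have hr2 : r < 1 := by linarith
  have hsum := tsum_sq_le hr0 hr2
  have hS : 2 / (1 - r) ^ 3 ≤ 250 * L ^ 3 := by
    have h3 : 1 / (5 * L) ≤ 1 - r := by
      have h4 : 1 / (5 * L) = 2 * x / 5 := by
        rw [hx]
        field_simp
      rw [h4]
      linarith
    have h5 : (1 / (5 * L)) ^ 3 ≤ (1 - r) ^ 3 := pow_le_pow_left₀ (by positivity) h3 3
    have h6 : 2 / (1 - r) ^ 3 ≤ 2 / (1 / (5 * L)) ^ 3 :=
      div_le_div_of_nonneg_left (by norm_num) (by positivity) h5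
    refine h6.trans (le_of_eq ?_)
    field_simp
    norm_num
  have ht2 : t ^ (1 - x) ≤ Real.exp 1 * t := by
    rw [Real.rpow_def_of_pos ht]
    have e1 : Real.log t * (1 - x) = Real.log t + -(Real.log t * x) := by ring
    rw [e1, Real.exp_add, Real.exp_log ht, mul_comm]
    refine mul_le_mul_of_nonneg_right (Real.exp_le_exp.2 ?_) ht.le
    have h7 : -(Real.log t * x) ≤ |Real.log t| * x := by
      have := mul_le_mul_of_nonneg_right (neg_abs_le (Real.log t)) hx0.le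
      linarith
    have h8 : |Real.log t| * x ≤ L * x := by
      refine mul_le_mul_of_nonneg_right ?_ hx0.le
      rw [hL]
      linarith
    linarith
  have h9 : 0 ≤ ∑' n : ℕ, ((n : ℝ) + 1) ^ 2 * r ^ n := tsum_nonneg fun n => by positivity
  rw [← hL]
  calc t ^ (1 - x) * ∑' n : ℕ, ((n : ℝ) + 1) ^ 2 * r ^ n
      ≤ (Real.exp 1 * t) * (250 * L ^ 3) :=
        mul_le_mul ht2 (hsum.trans hS) h9 (by positivity)
    _ = (Real.exp 1 * 250) * (t * L ^ 3) := by ring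

theorem t_BLG (hp1 : S_EDI) (hp2 : S_MIN) (hp3 : S_FIN) : S_BLG := by
  intro N C hN hE
  obtain ⟨K, hK0, hK⟩ := hp1 N C hN hE
  have hN' : 0 ≤ N := by linarith
  refine ⟨2 * ((2 * N * K ^ 2 / |ca| + 1) * (Real.exp 1 * 250)), by positivity, fun f hf h => ?_⟩
  rcases eq_or_ne h 0 with rfl | hh
  · have h0 : (fun x => BB N f (x + 0) - BB N f x) = fun _ => (0 : V) := by
      ext x i
      simp
    rw [h0]
    have h1 : ip (fun _ => (0 : V)) (fun _ => (0 : V)) = 0 := by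
      unfold ip
      simp
    rw [h1]
    exact mul_nonneg (sq_nonneg _) (ip_nonneg f)
  have hn : 0 < ‖h‖ := norm_pos_iff.2 hh
  obtain ⟨γ, hγ, hγ1, hnum⟩ := num hn
  have hr1 : (2 : ℝ) ^ (γ - 1) < 1 := Real.rpow_lt_one_of_one_lt_of_neg (by norm_num) (by linarith)
  have hr0 : (0 : ℝ) < 2 ^ (γ - 1) := by positivity
  have hS := summ_poly hr0.le hr1
  have hterm : ∀ n : ℕ, ((n : ℝ) + 1) ^ 2 / 2 ^ n * ((2 : ℝ) ^ n * ‖h‖) ^ γ
      = ‖h‖ ^ γ * (((n : ℝ) + 1) ^ 2 * ((2 : ℝ) ^ (γ - 1)) ^ n) := by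
    intro n
    have e1 : ((2 : ℝ) ^ n * ‖h‖) ^ γ = ((2 : ℝ) ^ n) ^ γ * ‖h‖ ^ γ :=
      Real.mul_rpow (by positivity) hn.le
    have e2 : ((2 : ℝ) ^ (γ - 1)) ^ n = ((2 : ℝ) ^ n) ^ γ / 2 ^ n := by
      rw [← Real.rpow_natCast (2 : ℝ) n, ← Real.rpow_mul (by norm_num), ← Real.rpow_natCast,
        ← Real.rpow_mul (by norm_num), ← Real.rpow_sub (by norm_num)]
      congr 1
      ring
    rw [e1, e2]
    ring
  have h1 := diff_est hp2 hp3 hN hE hK h (fun n => ((2 : ℝ) ^ n * ‖h‖) ^ γ)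
    (fun n => by positivity) (fun n => ?_) ?_ hf.mem
  · rw [tsum_congr hterm, tsum_mul_left] at h1
    refine h1.trans ?_
    refine mul_le_mul_of_nonneg_right ?_ (ip_nonneg f)
    have h9 : 0 ≤ ∑' n : ℕ, ((n : ℝ) + 1) ^ 2 * ((2 : ℝ) ^ (γ - 1)) ^ n :=
      tsum_nonneg fun n => by positivity
    refine pow_le_pow_left₀ (by positivity) ?_ 2
    have h2 := mul_le_mul_of_nonneg_left hnum
      (by positivity : (0 : ℝ) ≤ 2 * (2 * N * K ^ 2 / |ca| + 1))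
    refine le_trans (le_of_eq ?_) (h2.trans (le_of_eq ?_)) <;> ring
  · have e1 : (4 : ℝ) ^ n * ‖h‖ ^ 2 = ((2 : ℝ) ^ n * ‖h‖) ^ 2 := by
      rw [mul_pow, ← pow_mul, mul_comm n 2, pow_mul]
      norm_num
    rw [e1]
    obtain ⟨t, ht⟩ : ∃ t, t = (2 : ℝ) ^ n * ‖h‖ := ⟨_, rfl⟩
    rw [← ht]
    have ht0 : 0 < t := by
      rw [ht]
      positivity
    rcases le_total t 1 with h2 | h2
    · refine (min_le_right _ _).trans (pow_le_pow_left₀ ht0.le ?_ 2)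
      calc t = t ^ (1 : ℝ) := (Real.rpow_one t).symm
        _ ≤ t ^ γ := Real.rpow_le_rpow_of_exponent_ge ht0 h2 hγ1.le
    · refine (min_le_left _ _).trans ?_
      exact one_le_pow₀ (Real.one_le_rpow h2 hγ.le)
  · exact (hS.mul_left (‖h‖ ^ γ)).congr fun n => (hterm n).symm

end Pool.Agent.Q151.SP
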