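import Pool.Agent.Q62.SP.Stm

/-!
# Project SP of helper62: job 27 (the solution)
-/

set_option autoImplicit false

open Set Filter Topology
open scoped ContDiff
open H459R3.NS (V pd Per cube)

namespace Pool.Agent.Q151.SP

open Pool.Agent.Q62.SP

lemma pd_const (j : Fin 3) (c : ℝ) (x : V) : pd j (fun _ : V => c) x = 0 := by
  simp [pd]

/-- the transport equation for `WW` -/
lemma transport_WW (hp1 : S_PHI) {Z : ℝ → ℝ → ℝ → ℝ} (hZ : IsZ Z) (a b s : ℝ) :
    deriv (fun s => WW Z a b s) s + YA a b s * deriv (fun a => WW Z a b s) a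
      + YB a b s * deriv (fun b => WW Z a b s) b = 0 := by
  have hphi : Differentiable ℝ phi := hp1.1.1.differentiable (by simp)
  have hZd : Differentiable ℝ (fun z : ℝ × ℝ × ℝ => Z z.1 z.2.1 z.2.2) :=
    hZ.smooth.differentiable (by simp)
  obtain ⟨p, hp⟩ : ∃ p, HasDerivAt phi p (2 * Z a b s / 5) := ⟨_, (hphi _).hasDerivAt⟩
  have key : ∀ (g : ℝ → ℝ) (u : ℝ), DifferentiableAt ℝ g u → g u = Z a b s →
      deriv (fun r => 1 - phi (2 * g r / 5)) u = -(p * (2 / 5)) * deriv g u := by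
    intro g u hg hu
    have h1 : HasDerivAt (fun r => 2 * g r / 5) (2 * deriv g u / 5) u :=
      (hg.hasDerivAt.const_mul 2).div_const 5
    have hp' : HasDerivAt phi p (2 * g u / 5) := by rw [hu]; exact hp
    have h2 := (HasDerivAt.comp u hp' h1).const_sub 1
    have h3 : deriv (fun r => 1 - phi (2 * g r / 5)) u = -(p * (2 * deriv g u / 5)) := h2.deriv
    rw [h3]
    ring
  have d1 : DifferentiableAt ℝ (fun s => Z a b s) s := by
    have hc : DifferentiableAt ℝ (fun r : ℝ => ((a, b, r) : ℝ × ℝ × ℝ)) s :=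
      (differentiableAt_const a).prodMk ((differentiableAt_const b).prodMk differentiableAt_id)
    exact DifferentiableAt.comp (g := fun z : ℝ × ℝ × ℝ => Z z.1 z.2.1 z.2.2) s (hZd _) hc
  have d2 : DifferentiableAt ℝ (fun a => Z a b s) a := by
    have hc : DifferentiableAt ℝ (fun r : ℝ => ((r, b, s) : ℝ × ℝ × ℝ)) a :=
      differentiableAt_id.prodMk ((differentiableAt_const b).prodMk (differentiableAt_const s))
    exact DifferentiableAt.comp (g := fun z : ℝ × ℝ × ℝ => Z z.1 z.2.1 z.2.2) a (hZd _) hc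
  have d3 : DifferentiableAt ℝ (fun b => Z a b s) b := by
    have hc : DifferentiableAt ℝ (fun r : ℝ => ((a, r, s) : ℝ × ℝ × ℝ)) b :=
      (differentiableAt_const a).prodMk (differentiableAt_id.prodMk (differentiableAt_const s))
    exact DifferentiableAt.comp (g := fun z : ℝ × ℝ × ℝ => Z z.1 z.2.1 z.2.2) b (hZd _) hc
  have e1 := key (fun s => Z a b s) s d1 rfl
  have e2 := key (fun a => Z a b s) a d2 rfl
  have e3 := key (fun b => Z a b s) b d3 rfl
  have ht := hZ.transport a b s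
  simp only [WW]
  rw [e1, e2, e3]
  have : -(p * (2 / 5)) * (deriv (fun s => Z a b s) s + YA a b s * deriv (fun a => Z a b s) a
    + YB a b s * deriv (fun b => Z a b s) b) = 0 := by rw [ht, mul_zero]
  linarith

theorem t_SLN (hp1 : S_PHI) (_hp2 : S_FFP) (hp3 : S_PER) (hp4 : S_BWW) : S_SLN := by
  intro N c T hN _hc _hT Z hZ S hS hSd hS0
  have hN0 : N ≠ 0 := by
    intro h
    rw [h] at hN
    norm_num at hN
  have hsm : ContDiff ℝ ∞ (fun z : ℝ × ℝ × ℝ => WW Z z.1 z.2.1 z.2.2) := by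
    have h1 : ContDiff ℝ ∞ (fun z : ℝ × ℝ × ℝ => 2 * Z z.1 z.2.1 z.2.2 / 5) :=
      (contDiff_const.mul hZ.smooth).div_const 5
    exact contDiff_const.sub (hp1.1.1.comp h1)
  have hA : ∀ a b s, 66 ≤ |a| → WW Z a b s = WW Z 66 b s := by
    intro a b s ha
    simp only [WW]
    rw [hZ.outside a b s (Or.inl ha), hZ.outside 66 b s (Or.inl (by norm_num))]
  have hB : ∀ a b s, 66 ≤ |b| → WW Z a b s = WW Z a 66 s := by
    intro a b s hb
    simp only [WW]
    rw [hZ.outside a b s (Or.inr hb), hZ.outside a 66 s (Or.inr (by norm_num))]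
    rw [hp1.1.2.2.2.1 (2 * b / 5), hp1.1.2.2.2.1 (2 * 66 / 5)]
    · norm_num
    · rw [abs_div, abs_mul]
      norm_num
      linarith
  obtain ⟨hF, hP⟩ := hp3 N hN (WW Z) hsm hA hB
  -- joint smoothness
  have hjoint : ContDiffOn ℝ ∞ (fun z : ℝ × V => ww N Z (S z.1) z.2) (Ico 0 T ×ˢ univ) := by
    have hS' : ContDiffOn ℝ ∞ (fun z : ℝ × V => S z.1) (Ico 0 T ×ˢ univ) :=
      hS.comp contDiffOn_fst (fun z hz => hz.1.2)
    have h3 : ContDiffOn ℝ ∞
        (fun z : ℝ × V => WW Z (xi N (z.2 0)) (xi N (z.2 1)) (S z.1)) (Ico 0 T ×ˢ univ) :=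
      hF.comp_contDiffOn (hS'.prodMk contDiffOn_snd)
    rw [contDiffOn_pi]
    intro i
    fin_cases i
    · exact contDiffOn_const
    · exact contDiffOn_const
    · exact h3
  have hw0 : ∀ s, (fun y : V => ww N Z s y 0) = fun _ => 0 := fun s => rfl
  have hw1 : ∀ s, (fun y : V => ww N Z s y 1) = fun _ => 0 := fun s => rfl
  have hw2 : ∀ s, (fun y : V => ww N Z s y 2)
      = fun y : V => WW Z (xi N (y 0)) (xi N (y 1)) s := fun s => rfl
  refine ⟨⟨hjoint.of_le (by exact_mod_cast le_top), fun _ _ => contDiff_const, ?_,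
    fun _ _ _ _ => rfl, ?_, ?_⟩, hjoint⟩
  · intro t _ i x
    have h := (hP (S t)).1 i x
    simp only at h
    simp only [ww]
    rw [h]
  · intro t _ x
    rw [Fin.sum_univ_three, hw0, hw1, hw2, pd_const, pd_const, ((hP (S t)).2 x).2.2]
    norm_num
  · intro t ht x i
    have hA' : c • BB N (ww N Z (S t)) x
        = c • ![FF (S t) / N * YA (xi N (x 0)) (xi N (x 1)) (S t),
          FF (S t) / N * YB (xi N (x 0)) (xi N (x 1)) (S t), 0] := by
      rw [hp4 N hN Z hZ (S t) (hS0 t ht.1.le ht.2) x]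
    have hcurl : curl (ww N Z (S t)) x
        = ![N * deriv (fun b => WW Z (xi N (x 0)) b (S t)) (xi N (x 1)),
          -(N * deriv (fun a => WW Z a (xi N (x 1)) (S t)) (xi N (x 0))), 0] := by
      unfold curl
      rw [hw0, hw1, hw2, ((hP (S t)).2 x).1, ((hP (S t)).2 x).2.1]
      simp [pd_const]
    have hz : pd i (fun _ : V => (0 : ℝ)) x = 0 := pd_const i 0 x
    rw [Fin.sum_univ_three, hz, hA', hcurl, cross_apply]
    fin_cases i
    · simp [pd_const, ww]
    · simp [pd_const, ww]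
    · have hdt : deriv (fun s => WW Z (xi N (x 0)) (xi N (x 1)) (S s)) t
          = deriv (fun s => WW Z (xi N (x 0)) (xi N (x 1)) s) (S t) * (c * FF (S t)) := by
        have hd : DifferentiableAt ℝ (fun s => WW Z (xi N (x 0)) (xi N (x 1)) s) (S t) := by
          have hc : DifferentiableAt ℝ
              (fun r : ℝ => ((xi N (x 0), xi N (x 1), r) : ℝ × ℝ × ℝ)) (S t) :=
            (differentiableAt_const _).prodMk
              ((differentiableAt_const _).prodMk differentiableAt_id)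
          exact DifferentiableAt.comp (g := fun z : ℝ × ℝ × ℝ => WW Z z.1 z.2.1 z.2.2) (S t)
            (hsm.differentiable (by simp) _) hc
        exact (HasDerivAt.comp t hd.hasDerivAt (hSd t ht.2)).deriv
      have htr := transport_WW hp1 hZ (xi N (x 0)) (xi N (x 1)) (S t)
      change deriv (fun s => WW Z (xi N (x 0)) (xi N (x 1)) (S s)) t
        + (ww N Z (S t) x 0 * pd 0 (fun y => ww N Z (S t) y 2) x
          + ww N Z (S t) x 1 * pd 1 (fun y => ww N Z (S t) y 2) x
          + ww N Z (S t) x 2 * pd 2 (fun y => ww N Z (S t) y 2) x) + 0 = _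
      have e0 : ww N Z (S t) x 0 = 0 := rfl
      have e1 : ww N Z (S t) x 1 = 0 := rfl
      rw [hdt, hw2, ((hP (S t)).2 x).2.2, e0, e1]
      simp
      field_simp
      linear_combination (FF (S t)) * htr

end Pool.Agent.Q151.SP
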