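import Pool.Agent.Q62.SP.Stm

/-!
# Project SP of helper62: job 12 (the function `Z`)
-/

set_option autoImplicit false

open Set Filter Topology
open scoped ContDiff

namespace Pool.Agent.Q151.SP

open Pool.Agent.Q62.SP

theorem t_ZZZ (_hp1 : S_YSM) (hp2 : S_YBD) (hp3 : S_FLO) (hp4 : S_UNC) (hp5 : S_KEY) : S_ZZZ := by
  obtain ⟨X, hX⟩ := hp3
  have hsm : ContDiff ℝ ∞ (fun z : ℝ × ℝ × ℝ => (X z.1 z.2.1 z.2.2 0).2) := by
    have h1 : ContDiff ℝ ∞ (fun z : ℝ × ℝ × ℝ =>
        ((z.1, z.2.1, z.2.2, (0 : ℝ)) : ℝ × ℝ × ℝ × ℝ)) :=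
      contDiff_fst.prodMk (contDiff_snd.fst.prodMk (contDiff_snd.snd.prodMk contDiff_const))
    exact (hX.smooth.comp h1).snd
  refine ⟨fun a b s => (X a b s 0).2, hsm, ?_, ?_, ?_, ?_, ?_⟩
  · intro a b
    change (X a b 0 0).2 = b
    rw [hX.start]
  · intro a b s
    obtain ⟨L, hL⟩ : ∃ L : (ℝ × ℝ × ℝ) →L[ℝ] ℝ,
        HasFDerivAt (fun z : ℝ × ℝ × ℝ => (X z.1 z.2.1 z.2.2 0).2) L (a, b, s) :=
      ⟨_, (hsm.differentiable (by simp) (a, b, s)).hasFDerivAt⟩
    have h1 : HasDerivAt (fun r : ℝ => (X a b r 0).2) (L (0, 0, 1)) s := by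
      have hc : HasDerivAt (fun r : ℝ => ((a, b, r) : ℝ × ℝ × ℝ)) (0, 0, 1) s :=
        (hasDerivAt_const s a).prodMk ((hasDerivAt_const s b).prodMk (hasDerivAt_id s))
      exact HasFDerivAt.comp_hasDerivAt s hL hc
    have h2 : HasDerivAt (fun r : ℝ => (X r b s 0).2) (L (1, 0, 0)) a := by
      have hc : HasDerivAt (fun r : ℝ => ((r, b, s) : ℝ × ℝ × ℝ)) (1, 0, 0) a :=
        (hasDerivAt_id a).prodMk ((hasDerivAt_const a b).prodMk (hasDerivAt_const a s))
      exact HasFDerivAt.comp_hasDerivAt a hL hc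
    have h3 : HasDerivAt (fun r : ℝ => (X a r s 0).2) (L (0, 1, 0)) b := by
      have hc : HasDerivAt (fun r : ℝ => ((a, r, s) : ℝ × ℝ × ℝ)) (0, 1, 0) b :=
        (hasDerivAt_const b a).prodMk ((hasDerivAt_id b).prodMk (hasDerivAt_const b s))
      exact HasFDerivAt.comp_hasDerivAt b hL hc
    have h4 : HasDerivAt (fun r : ℝ => (X (X a b s r).1 (X a b s r).2 r 0).2)
        (L (YA a b s, YB a b s, 1)) s := by
      have hcv := hX.curve a b s s
      simp only [hX.start] at hcv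
      have hc : HasDerivAt (fun r : ℝ => (((X a b s r).1, (X a b s r).2, r) : ℝ × ℝ × ℝ))
          (YA a b s, YB a b s, 1) s :=
        hcv.1.prodMk (hcv.2.prodMk (hasDerivAt_id s))
      have hL' : HasFDerivAt (fun z : ℝ × ℝ × ℝ => (X z.1 z.2.1 z.2.2 0).2) L
          ((X a b s s).1, (X a b s s).2, s) := by
        rw [hX.start]
        exact hL
      exact HasFDerivAt.comp_hasDerivAt (f := fun r : ℝ =>
        (((X a b s r).1, (X a b s r).2, r) : ℝ × ℝ × ℝ)) s hL' hc
    have h5 : (fun r : ℝ => (X (X a b s r).1 (X a b s r).2 r 0).2) = fun _ => (X a b s 0).2 := by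
      funext r
      rw [hX.group]
    rw [h5] at h4
    have h6 := h4.unique (hasDerivAt_const s _)
    have h7 : L (YA a b s, YB a b s, 1)
        = YA a b s * L (1, 0, 0) + YB a b s * L (0, 1, 0) + L (0, 0, 1) := by
      have he : ((YA a b s, YB a b s, 1) : ℝ × ℝ × ℝ)
          = YA a b s • ((1, 0, 0) : ℝ × ℝ × ℝ) + YB a b s • ((0, 1, 0) : ℝ × ℝ × ℝ)
            + ((0, 0, 1) : ℝ × ℝ × ℝ) := by
        simp
      rw [he, map_add, map_add, map_smul, map_smul, smul_eq_mul, smul_eq_mul]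
    rw [h1.deriv, h2.deriv, h3.deriv]
    linarith
  · intro a b s hab
    have hcst : IsCurve (fun _ => a) (fun _ => b) := by
      intro r
      obtain ⟨e1, e2⟩ := hp2.2.1 a b r hab
      constructor
      · simp only [e1]
        exact hasDerivAt_const r a
      · simp only [e2]
        exact hasDerivAt_const r b
    have h := hp4 _ _ _ _ (hX.curve a b s) hcst s (by rw [hX.start]) (by rw [hX.start]) 0
    exact h.2
  · intro a b s hs hab hb
    have h := hp5 _ _ (hX.curve a b s) s hs (by rw [hX.start]; exact hab)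
    simp only [hX.start] at h
    exact h.1 hb
  · intro a b s hs hab hb
    have h := hp5 _ _ (hX.curve a b s) s hs (by rw [hX.start]; exact hab)
    simp only [hX.start] at h
    exact h.2 hb

end Pool.Agent.Q151.SP
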